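import Pool.Agent.Helper194.BB.N
import Pool.Agent.Helper194.BB.P
import Pool.Agent.Helper257.BB.Test

set_option autoImplicit false
set_option linter.unusedVariables false
set_option linter.unusedSectionVars false

open scoped unitInterval Matrix Topology ComplexConjugate Kronecker
open ContinuousMap Topology

noncomputable section

namespace BB



section hqgen
variable {ρ χ : Type} [Fintype ρ] [DecidableEq ρ] [Fintype χ] [DecidableEq χ]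

/-- the standard projection -/
def hqP (ρ χ : Type) [DecidableEq ρ] : Matrix (ρ ⊕ χ) (ρ ⊕ χ) ℂ := Matrix.fromBlocks 1 0 0 0

theorem hq_b11_aux (m : (Matrix (ρ ⊕ χ) (ρ ⊕ χ) ℂ)ˣ) (h : m.1 * hqP ρ χ = hqP ρ χ * m.1) :
    m.1.toBlocks₁₁ * m⁻¹.1.toBlocks₁₁ = 1 ∧ m⁻¹.1.toBlocks₁₁ * m.1.toBlocks₁₁ = 1 := by
  have hA := (Matrix.fromBlocks_toBlocks m.1).symm
  have hB := (Matrix.fromBlocks_toBlocks m⁻¹.1).symm
  obtain ⟨A, hAd⟩ : ∃ A, A = m.1.toBlocks₁₁ := ⟨_, rfl⟩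
  obtain ⟨A2, hA2⟩ : ∃ A, A = m.1.toBlocks₁₂ := ⟨_, rfl⟩
  obtain ⟨A3, hA3⟩ : ∃ A, A = m.1.toBlocks₂₁ := ⟨_, rfl⟩
  obtain ⟨A4, hA4⟩ : ∃ A, A = m.1.toBlocks₂₂ := ⟨_, rfl⟩
  obtain ⟨B, hBd⟩ : ∃ A, A = m⁻¹.1.toBlocks₁₁ := ⟨_, rfl⟩
  obtain ⟨B2, hB2⟩ : ∃ A, A = m⁻¹.1.toBlocks₁₂ := ⟨_, rfl⟩
  obtain ⟨B3, hB3⟩ : ∃ A, A = m⁻¹.1.toBlocks₂₁ := ⟨_, rfl⟩
  obtain ⟨B4, hB4⟩ : ∃ A, A = m⁻¹.1.toBlocks₂₂ := ⟨_, rfl⟩
  rw [← hAd, ← hA2, ← hA3, ← hA4] at hA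
  rw [← hBd, ← hB2, ← hB3, ← hB4] at hB
  have h1 := m.val_inv
  have h2 := m.inv_val
  have h1' : m.1 * m⁻¹.1 = 1 := h1
  have h2' : m⁻¹.1 * m.1 = 1 := h2
  rw [← hAd, ← hBd]
  rw [hA, hB, Matrix.fromBlocks_multiply, ← Matrix.fromBlocks_one, Matrix.fromBlocks_inj] at h1' h2'
  rw [hA] at h
  unfold hqP at h
  rw [Matrix.fromBlocks_multiply, Matrix.fromBlocks_multiply, Matrix.fromBlocks_inj] at h
  obtain ⟨_, e1, e2, _⟩ := h
  simp only [Matrix.mul_one, Matrix.one_mul, Matrix.mul_zero, Matrix.zero_mul, add_zero, zero_add] at e1 e2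
  refine ⟨?_, ?_⟩
  · have h3 := h1'.1
    rw [← e1, Matrix.zero_mul, add_zero] at h3
    exact h3
  · have h3 := h2'.1
    rw [e2, Matrix.mul_zero, add_zero] at h3
    exact h3

/-- the upper left block of a family of matrices commuting with the projection -/
def hqb11 {S : Type} [TopologicalSpace S] (N : C(S, (Matrix (ρ ⊕ χ) (ρ ⊕ χ) ℂ)ˣ))
    (h : ∀ s, (N s).1 * hqP ρ χ = hqP ρ χ * (N s).1) :
    C(S, (Matrix ρ ρ ℂ)ˣ) where
  toFun s :=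
    { val := (N s).1.toBlocks₁₁
      inv := (N s)⁻¹.1.toBlocks₁₁
      val_inv := (hq_b11_aux (N s) (h s)).1
      inv_val := (hq_b11_aux (N s) (h s)).2 }
  continuous_toFun := by
    rw [Units.continuous_iff]
    constructor
    · exact ((Units.continuous_val.comp N.continuous).matrix_submatrix Sum.inl Sum.inl)
    · exact ((Units.continuous_val.comp (continuous_inv.comp N.continuous)).matrix_submatrix Sum.inl Sum.inl)

theorem hq_close_homotopic {T : Type} [TopologicalSpace T] (F G : C(T, (Matrix ρ ρ ℂ)ˣ))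
    (h : ∀ t, ∀ s : ℝ, 0 ≤ s → s ≤ 1 → IsUnit ((1 - s : ℂ) • (F t).1 + (s : ℂ) • (G t).1)) :
    Homotopic F G := by
  have hu : ∀ p : I × T, IsUnit ((1 - ((p.1 : ℝ) : ℂ)) • (F p.2).1 + ((p.1 : ℝ) : ℂ) • (G p.2).1) :=
    fun p => h p.2 p.1 p.1.2.1 p.1.2.2
  have hc : Continuous fun p : I × T =>
      (1 - ((p.1 : ℝ) : ℂ)) • (F p.2).1 + ((p.1 : ℝ) : ℂ) • (G p.2).1 := by
    have h1 : Continuous fun p : I × T => ((p.1 : ℝ) : ℂ) :=
      Complex.continuous_ofReal.comp (continuous_subtype_val.comp continuous_fst)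
    have h2 : Continuous fun p : I × T => (F p.2).1 :=
      Units.continuous_val.comp (F.continuous.comp continuous_snd)
    have h3 : Continuous fun p : I × T => (G p.2).1 :=
      Units.continuous_val.comp (G.continuous.comp continuous_snd)
    exact ((continuous_const.sub h1).smul h2).add (h1.smul h3)
  have hH : Continuous fun p : I × T => (hu p).unit := by
    rw [Units.continuous_iff]
    refine ⟨hc, ?_⟩
    have h4 : (fun p : I × T => (((hu p).unit⁻¹ : (Matrix ρ ρ ℂ)ˣ) : Matrix ρ ρ ℂ)) = fun p : I × T =>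
        (((1 - ((p.1 : ℝ) : ℂ)) • (F p.2).1 + ((p.1 : ℝ) : ℂ) • (G p.2).1).det)⁻¹ •
          ((1 - ((p.1 : ℝ) : ℂ)) • (F p.2).1 + ((p.1 : ℝ) : ℂ) • (G p.2).1).adjugate := by
      funext p
      rw [Matrix.coe_units_inv, IsUnit.unit_spec, Matrix.inv_def, Ring.inverse_eq_inv']
    rw [h4]
    refine Continuous.smul (Continuous.inv₀ hc.matrix_det fun p => ?_) hc.matrix_adjugate
    exact ((Matrix.isUnit_iff_isUnit_det _).mp (hu p)).ne_zero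
  refine ⟨{ toFun := fun p => (hu p).unit, continuous_toFun := hH, map_zero_left := ?_,
            map_one_left := ?_ }⟩
  · intro t
    apply Units.ext
    show (1 - (((0 : I) : ℝ) : ℂ)) • (F t).1 + (((0 : I) : ℝ) : ℂ) • (G t).1 = (F t).1
    simp
  · intro t
    apply Units.ext
    show (1 - (((1 : I) : ℝ) : ℂ)) • (F t).1 + (((1 : I) : ℝ) : ℂ) • (G t).1 = (G t).1
    simp

theorem hq_nhds_diag (P : Matrix ρ ρ ℂ) (hP : IsUnit P) : ∀ᶠ q : Matrix ρ ρ ℂ × Matrix ρ ρ ℂ in 𝓝 (P, P),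
    ∀ s ∈ Set.Icc (0 : ℝ) 1, IsUnit ((1 - s : ℂ) • q.1 + (s : ℂ) • q.2) := by
  refine IsCompact.eventually_forall_of_forall_eventually isCompact_Icc ?_
  intro s hs
  have hc : Continuous fun z : (Matrix ρ ρ ℂ × Matrix ρ ρ ℂ) × ℝ =>
      Matrix.det ((1 - z.2 : ℂ) • z.1.1 + (z.2 : ℂ) • z.1.2) := by
    apply Continuous.matrix_det
    fun_prop
  have h0 : Matrix.det ((1 - s : ℂ) • P + (s : ℂ) • P) ≠ 0 := by
    rw [← add_smul, sub_add_cancel, one_smul]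
    exact ((Matrix.isUnit_iff_isUnit_det P).1 hP).ne_zero
  have := hc.continuousAt.eventually_ne (x := (((P, P), s) : (Matrix ρ ρ ℂ × Matrix ρ ρ ℂ) × ℝ)) h0
  filter_upwards [this] with z hz
  exact (Matrix.isUnit_iff_isUnit_det _).2 (isUnit_iff_ne_zero.2 hz)

theorem hq_thick {X : Type} [TopologicalSpace X] (c : X → Matrix (ρ ⊕ χ) (ρ ⊕ χ) ℂ) (x0 : X)
    (h : ContinuousAt c x0) :
    ContinuousAt (fun x => (c x).toBlocks₁₁) x0 := by
  have : Continuous fun A : Matrix (ρ ⊕ χ) (ρ ⊕ χ) ℂ => A.toBlocks₁₁ := by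
    show Continuous fun A : Matrix (ρ ⊕ χ) (ρ ⊕ χ) ℂ => A.submatrix Sum.inl Sum.inl
    exact continuous_id.matrix_submatrix _ _
  exact this.continuousAt.comp h

end hqgen

section hqs
variable (r s : Type) [Fintype r] [DecidableEq r] [Fintype s] [DecidableEq s]

/-- the big matrices -/
abbrev HQL (r s : Type) : Type := Matrix ((Fin 4 ⊕ r) ⊕ (Fin 4 ⊕ s)) ((Fin 4 ⊕ r) ⊕ (Fin 4 ⊕ s)) ℂ

/-- reindexing -/
def hqM (m : Matrix ((Fin 4 ⊕ Fin 4) ⊕ (r ⊕ s)) ((Fin 4 ⊕ Fin 4) ⊕ (r ⊕ s)) ℂ) : HQL r s :=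
  m.submatrix (Equiv.sumSumSumComm (Fin 4) (Fin 4) r s).symm (Equiv.sumSumSumComm (Fin 4) (Fin 4) r s).symm

theorem hqM_mul (m m' : Matrix ((Fin 4 ⊕ Fin 4) ⊕ (r ⊕ s)) ((Fin 4 ⊕ Fin 4) ⊕ (r ⊕ s)) ℂ) :
    hqM r s (m * m') = hqM r s m * hqM r s m' := by
  unfold hqM
  rw [Matrix.submatrix_mul_equiv]

theorem hqM_one : hqM r s 1 = 1 := by
  unfold hqM
  rw [Matrix.submatrix_one_equiv]

theorem hqM_cont : Continuous (hqM r s) := by
  unfold hqM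
  exact continuous_id.matrix_submatrix _ _

theorem hqM_e0 : hqM r s (blk r s e0) = hqP (Fin 4 ⊕ r) (Fin 4 ⊕ s) := by
  ext i j
  rcases i with (i | i) | (i | i) <;> rcases j with (j | j) | (j | j) <;>
    simp [hqM, blk, e0, hqP, Matrix.one_apply]

/-- the big rotation -/
def hqB (x : M8) : HQL r s := hqM r s (Matrix.fromBlocks x 0 0 1)

theorem hqB_mul (x y : M8) : hqB r s (x * y) = hqB r s x * hqB r s y := by
  unfold hqB
  rw [← hqM_mul, Matrix.fromBlocks_multiply]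
  simp

theorem hqB_one : hqB r s 1 = 1 := by
  unfold hqB
  rw [Matrix.fromBlocks_one, hqM_one]

theorem hqB_diag (x y : M4) : hqB r s (Matrix.fromBlocks x 0 0 y) =
    Matrix.fromBlocks (Matrix.fromBlocks x 0 0 1) 0 0 (Matrix.fromBlocks y 0 0 1) := by
  ext i j
  rcases i with (i | i) | (i | i) <;> rcases j with (j | j) | (j | j) <;>
    simp [hqB, hqM, Matrix.one_apply]

theorem hqB_cont : Continuous (hqB r s) := by
  unfold hqB
  exact (hqM_cont r s).comp (Continuous.matrix_fromBlocks continuous_id continuous_const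
    continuous_const continuous_const)

theorem hqB_blk (a b c : M8) (h : a * b = b * c) :
    hqM r s (blk r s a) * hqB r s b = hqB r s b * hqM r s (blk r s c) := by
  unfold hqB
  rw [← hqM_mul, ← hqM_mul]
  unfold blk
  rw [Matrix.fromBlocks_multiply, Matrix.fromBlocks_multiply]
  simp [h]

theorem hq_inv {E : Type} [TopologicalSpace E] (u : C(E, M8)) (g : C(E, (HQL r s)ˣ))
    (hg : ∀ e, (g e).1 * hqP (Fin 4 ⊕ r) (Fin 4 ⊕ s) = hqM r s (blk r s (u e)) * (g e).1) (e : E) :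
    (g e)⁻¹.1 * hqM r s (blk r s (u e)) = hqP (Fin 4 ⊕ r) (Fin 4 ⊕ s) * (g e)⁻¹.1 := by
  have h1 : (g e)⁻¹.1 * (g e).1 = 1 := (g e).inv_mul
  have h2 : (g e).1 * (g e)⁻¹.1 = 1 := (g e).mul_inv
  calc (g e)⁻¹.1 * hqM r s (blk r s (u e)) = (g e)⁻¹.1 * hqM r s (blk r s (u e)) * ((g e).1 * (g e)⁻¹.1) := by
        rw [h2, mul_one]
    _ = (g e)⁻¹.1 * (hqM r s (blk r s (u e)) * (g e).1) * (g e)⁻¹.1 := by simp only [mul_assoc]
    _ = (g e)⁻¹.1 * ((g e).1 * hqP (Fin 4 ⊕ r) (Fin 4 ⊕ s)) * (g e)⁻¹.1 := by rw [hg]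
    _ = ((g e)⁻¹.1 * (g e).1) * hqP (Fin 4 ⊕ r) (Fin 4 ⊕ s) * (g e)⁻¹.1 := by simp only [mul_assoc]
    _ = hqP (Fin 4 ⊕ r) (Fin 4 ⊕ s) * (g e)⁻¹.1 := by rw [h1, one_mul]

theorem hq_unif {E : Type} [MetricSpace E] [CompactSpace E] (u : C(E, M8)) (g : C(E, (HQL r s)ˣ))
    (hg : ∀ e, (g e).1 * hqP (Fin 4 ⊕ r) (Fin 4 ⊕ s) = hqM r s (blk r s (u e)) * (g e).1) :
    ∃ η > (0 : ℝ), ∀ (e' e : E) (x : M4) (t : ℝ), u e = e0 → x ∈ Matrix.unitaryGroup (Fin 4) ℂ →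
      dist e' e ≤ η → |t| ≤ η → ∀ s' ∈ Set.Icc (0 : ℝ) 1,
      IsUnit ((1 - s' : ℂ) • ((g e')⁻¹.1 * hqB r s (Um x t)).toBlocks₁₁ + (s' : ℂ) • ((g e)⁻¹.1).toBlocks₁₁) := by
  let _ : NormedAddCommGroup M4 := Matrix.normedAddCommGroup
  let U : Set (E × (E × (M4 × ℝ))) := {p | ∀ s' ∈ Set.Icc (0 : ℝ) 1,
    IsUnit ((1 - s' : ℂ) • ((g p.1)⁻¹.1 * hqB r s (Um p.2.2.1 p.2.2.2)).toBlocks₁₁ +
      (s' : ℂ) • ((g p.2.1)⁻¹.1).toBlocks₁₁)}
  let KK : Set (E × (E × (M4 × ℝ))) := (fun q : E × M4 => (q.1, (q.1, (q.2, (0 : ℝ))))) ''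
    ({e | u e = e0} ×ˢ {x : M4 | x ∈ Matrix.unitaryGroup (Fin 4) ℂ})
  have hK : IsCompact KK := by
    refine IsCompact.image ?_ (by fun_prop)
    refine IsCompact.prod ?_ jn_unit_compact
    exact (isClosed_eq u.continuous continuous_const).isCompact
  have hKU : KK ⊆ interior U := by
    rintro _ ⟨⟨e, x⟩, ⟨he, hx⟩, rfl⟩
    have he' : u e = e0 := he
    have hx' : x ∈ Matrix.unitaryGroup (Fin 4) ℂ := hx
    rw [mem_interior_iff_mem_nhds]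
    have hxu : IsUnit x := by
      refine ⟨⟨x, star x, Matrix.mem_unitaryGroup_iff.1 hx', Matrix.mem_unitaryGroup_iff'.1 hx'⟩, rfl⟩
    have hP : IsUnit ((g e)⁻¹.1).toBlocks₁₁ := by
      have := hq_b11_aux (g e) (by rw [hg, he', hqM_e0])
      exact ⟨⟨_, _, this.2, this.1⟩, rfl⟩
    have hu0 : ((g e)⁻¹.1 * hqB r s (Um x 0)).toBlocks₁₁ = ((g e)⁻¹.1).toBlocks₁₁ := by
      rw [(Um_zero x hxu).1, hqB_one, mul_one]
    have hc : ContinuousAt (fun p : E × (E × (M4 × ℝ)) =>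
        (((g p.1)⁻¹.1 * hqB r s (Um p.2.2.1 p.2.2.2)).toBlocks₁₁, ((g p.2.1)⁻¹.1).toBlocks₁₁))
        (e, (e, (x, (0 : ℝ)))) := by
      have hgi : Continuous fun e : E => (g e)⁻¹.1 :=
        Units.continuous_val.comp (continuous_inv.comp g.continuous)
      refine ContinuousAt.prodMk ?_ ?_
      · apply hq_thick
        refine ContinuousAt.mul (hgi.comp continuous_fst).continuousAt ?_
        have h1 := (Um_contAt x hxu 0).1
        have h2 : ContinuousAt (fun p : E × (E × (M4 × ℝ)) => p.2.2) (e, (e, (x, (0 : ℝ)))) := by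
          fun_prop
        have h3 : ContinuousAt (fun p : E × (E × (M4 × ℝ)) => Um p.2.2.1 p.2.2.2) (e, (e, (x, (0 : ℝ)))) :=
          ContinuousAt.comp (f := fun p : E × (E × (M4 × ℝ)) => p.2.2)
            (g := fun q : M4 × ℝ => Um q.1 q.2) (x := (e, (e, (x, (0 : ℝ))))) h1 h2
        exact (hqB_cont r s).continuousAt.comp h3
      · apply hq_thick
        exact (hgi.comp (by fun_prop)).continuousAt
    have hd := hq_nhds_diag _ hP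
    have hc2 : Filter.Tendsto (fun p : E × (E × (M4 × ℝ)) =>
        (((g p.1)⁻¹.1 * hqB r s (Um p.2.2.1 p.2.2.2)).toBlocks₁₁, ((g p.2.1)⁻¹.1).toBlocks₁₁))
        (𝓝 (e, (e, (x, (0 : ℝ))))) (𝓝 (((g e)⁻¹.1).toBlocks₁₁, ((g e)⁻¹.1).toBlocks₁₁)) := by
      have := hc.tendsto
      simp only [hu0] at this
      exact this
    exact hc2.eventually hd
  obtain ⟨δ, hδ, hsub⟩ := hK.exists_thickening_subset_open isOpen_interior hKU
  refine ⟨δ / 2, by positivity, fun e' e x t he hx hd ht s' hs => ?_⟩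
  have hmem : (e', (e, (x, t))) ∈ Metric.thickening δ KK := by
    rw [Metric.mem_thickening_iff]
    refine ⟨(e, (e, (x, (0 : ℝ)))), ⟨(e, x), ⟨he, hx⟩, rfl⟩, ?_⟩
    rw [Prod.dist_eq, Prod.dist_eq, Prod.dist_eq]
    simp only [dist_self, max_lt_iff, hδ, true_and]
    refine ⟨by linarith, ?_⟩
    rw [Real.dist_eq, sub_zero]
    linarith
  exact interior_subset (hsub hmem) s' hs

/-- the big rotation as a unit -/
def hqBU (x : M8ˣ) : (HQL r s)ˣ := ⟨hqB r s x.1, hqB r s x⁻¹.1, by rw [← hqB_mul, x.mul_inv, hqB_one],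
  by rw [← hqB_mul, x.inv_mul, hqB_one]⟩

theorem hqBU_cont : Continuous (hqBU r s) := by
  rw [Units.continuous_iff]
  exact ⟨(hqB_cont r s).comp Units.continuous_val, 
    (hqB_cont r s).comp (Units.continuous_val.comp continuous_inv)⟩

end hqs

/-- the final contradiction, stable version -/
theorem no_conj_st {B E : Type} [TopologicalSpace B] [CompactSpace B] [MetricSpace E] [CompactSpace E]
    (u : C(E, M8)) (hst : StSim u (ContinuousMap.const E e0))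
    (sg κ : C(B, E)) (hsg : ∀ b, u (sg b) = e0) (hκ : ∀ b, u (κ b) = e0)
    (H : ∀ η > (0 : ℝ), ∃ (n : ℕ) (bb : C(Wt (n + 1), B)) (α γ : C((Wt (n + 1) × Circle) × I, E))
      (τ : C((Wt (n + 1) × Circle) × I, I)),
      (∀ w s, u (α (w, s)) = em (Fn (n + 1) w).1 (τ (w, s))) ∧ (∀ w, τ (w, 1) = 1) ∧
      (∀ w, (τ (w, 0) : ℝ) ≤ η) ∧ (∀ w, dist (α (w, 0)) (sg (bb w.1)) ≤ η) ∧
      (∀ w, γ (w, 0) = α (w, 1)) ∧ (∀ w, γ (w, 1) = κ (bb w.1)) ∧ (∀ q, u (γ q) = e0)) : False := by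
  obtain ⟨r, s, _, _, _, _, v, hv⟩ := hst
  let L := HQL r s
  let g : C(E, (HQL r s)ˣ) := ri (Equiv.sumSumSumComm (Fin 4) (Fin 4) r s) v⁻¹
  have hgv : ∀ e, (g e).1 = hqM r s ((v e)⁻¹).1 := fun e => rfl
  have hg : ∀ e, (g e).1 * hqP (Fin 4 ⊕ r) (Fin 4 ⊕ s) = hqM r s (blk r s (u e)) * (g e).1 := by
    intro e
    rw [hgv, ← hqM_e0, ← hqM_mul, ← hqM_mul]
    congr 1
    have h1 : ((v e)⁻¹).1 * (v e).1 = 1 := (v e).inv_mul
    have h2 : (v e).1 * ((v e)⁻¹).1 = 1 := (v e).mul_inv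
    have h3 : (v e).1 * blk r s (u e) = blk r s e0 * (v e).1 := hv e
    calc ((v e)⁻¹).1 * blk r s e0 = ((v e)⁻¹).1 * blk r s e0 * ((v e).1 * ((v e)⁻¹).1) := by rw [h2, mul_one]
      _ = ((v e)⁻¹).1 * (blk r s e0 * (v e).1) * ((v e)⁻¹).1 := by simp only [mul_assoc]
      _ = ((v e)⁻¹).1 * ((v e).1 * blk r s (u e)) * ((v e)⁻¹).1 := by rw [h3]
      _ = (((v e)⁻¹).1 * (v e).1) * blk r s (u e) * ((v e)⁻¹).1 := by simp only [mul_assoc]
      _ = blk r s (u e) * ((v e)⁻¹).1 := by rw [h1, one_mul]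
  obtain ⟨η, hη, hunif⟩ := hq_unif r s u g hg
  obtain ⟨n, bb, α, γ, τ, hα, hτ1, hτ0, hdist, hγ0, hγ1, hγu⟩ := H η hη
  -- the blocks over `B`
  have hcs : ∀ b, ((g.comp sg) b).1 * hqP (Fin 4 ⊕ r) (Fin 4 ⊕ s) = hqP (Fin 4 ⊕ r) (Fin 4 ⊕ s) * ((g.comp sg) b).1 := by
    intro b
    show (g (sg b)).1 * hqP (Fin 4 ⊕ r) (Fin 4 ⊕ s) = hqP (Fin 4 ⊕ r) (Fin 4 ⊕ s) * (g (sg b)).1
    rw [hg, hsg, hqM_e0]
  have hck : ∀ b, ((g.comp κ) b).1 * hqP (Fin 4 ⊕ r) (Fin 4 ⊕ s) = hqP (Fin 4 ⊕ r) (Fin 4 ⊕ s) * ((g.comp κ) b).1 := by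
    intro b
    show (g (κ b)).1 * hqP (Fin 4 ⊕ r) (Fin 4 ⊕ s) = hqP (Fin 4 ⊕ r) (Fin 4 ⊕ s) * (g (κ b)).1
    rw [hg, hκ, hqM_e0]
  have hcg : ∀ q, ((g.comp γ) q).1 * hqP (Fin 4 ⊕ r) (Fin 4 ⊕ s) = hqP (Fin 4 ⊕ r) (Fin 4 ⊕ s) * ((g.comp γ) q).1 := by
    intro q
    show (g (γ q)).1 * hqP (Fin 4 ⊕ r) (Fin 4 ⊕ s) = hqP (Fin 4 ⊕ r) (Fin 4 ⊕ s) * (g (γ q)).1
    rw [hg, hγu, hqM_e0]
  let A0 : C(B, (Matrix (Fin 4 ⊕ r) (Fin 4 ⊕ r) ℂ)ˣ) := hqb11 (g.comp sg) hcs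
  let A1 : C(B, (Matrix (Fin 4 ⊕ r) (Fin 4 ⊕ r) ℂ)ˣ) := hqb11 (g.comp κ) hck
  let GG : C((Wt (n + 1) × Circle) × I, (Matrix (Fin 4 ⊕ r) (Fin 4 ⊕ r) ℂ)ˣ) := hqb11 (g.comp γ) hcg
  let N : C((Wt (n + 1) × Circle) × I, (HQL r s)ˣ) :=
    ⟨fun q => (g (α q))⁻¹ * hqBU r s (jnU (Fn (n + 1) q.1) (τ q : ℝ)), by
      have h1 : Continuous fun q : (Wt (n + 1) × Circle) × I => (g (α q))⁻¹ :=
        continuous_inv.comp (g.continuous.comp α.continuous)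
      have h2 : Continuous fun q : (Wt (n + 1) × Circle) × I => jnU (Fn (n + 1) q.1) (τ q : ℝ) :=
        jnU_cont _ _ ((Fn (n + 1)).continuous.comp continuous_fst)
          (continuous_subtype_val.comp τ.continuous)
      exact h1.mul ((hqBU_cont r s).comp h2)⟩
  have hNval : ∀ q, (N q).1 = (g (α q))⁻¹.1 * hqB r s (Um (Fn (n + 1) q.1).1 (τ q : ℝ)) := fun q => rfl
  have hN : ∀ q, (N q).1 * hqP (Fin 4 ⊕ r) (Fin 4 ⊕ s) = hqP (Fin 4 ⊕ r) (Fin 4 ⊕ s) * (N q).1 := by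
    rintro ⟨w, t⟩
    have hx : IsUnit (Fn (n + 1) w).1 := (Fn (n + 1) w).isUnit
    have h1 : em (Fn (n + 1) w).1 (τ (w, t)) * Um (Fn (n + 1) w).1 (τ (w, t)) =
        Um (Fn (n + 1) w).1 (τ (w, t)) * e0 := by
      rw [em, mul_assoc, (Um_Ui _ hx _).2, mul_one]
    have h2 := hqB_blk r s _ _ _ h1
    rw [hNval, mul_assoc]
    show (g (α (w, t)))⁻¹.1 * (hqB r s (Um (Fn (n + 1) w).1 (τ (w, t))) * hqP (Fin 4 ⊕ r) (Fin 4 ⊕ s)) = _
    rw [← hqM_e0, ← h2, ← hα, ← mul_assoc, hq_inv r s u g hg, mul_assoc, hqM_e0]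
  let β : C((Wt (n + 1) × Circle) × I, (Matrix (Fin 4 ⊕ r) (Fin 4 ⊕ r) ℂ)ˣ) := hqb11 N hN
  -- the classes
  have e1 : K1.mk (β.comp (jnI _ 0)) = K1.mk (β.comp (jnI _ 1)) := K1.mk_hom (jn_cyl β)
  have e2 : K1.mk (GG.comp (jnI _ 0)) = K1.mk (GG.comp (jnI _ 1)) := K1.mk_hom (jn_cyl GG)
  have e3 : GG.comp (jnI _ 1) = A1.comp (bb.comp ContinuousMap.fst) := by
    ext1 w
    apply Units.ext
    show (g (γ (w, 1))).1.toBlocks₁₁ = (g (κ (bb w.1))).1.toBlocks₁₁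
    rw [hγ1]
  have e4 : β.comp (jnI _ 1) = (GG.comp (jnI _ 0))⁻¹ * ds (Fn (n + 1)) (1 : C(Wt (n + 1) × Circle, (Matrix r r ℂ)ˣ)) := by
    ext1 w
    apply Units.ext
    show ((g (α (w, 1)))⁻¹.1 * hqB r s (Um (Fn (n + 1) w).1 (τ (w, 1) : ℝ))).toBlocks₁₁ =
      ((g (γ (w, 0)))⁻¹.1).toBlocks₁₁ * Matrix.fromBlocks (Fn (n + 1) w).1 0 0 1
    rw [hτ1, hγ0]
    show ((g (α (w, 1)))⁻¹.1 * hqB r s (Um (Fn (n + 1) w).1 1)).toBlocks₁₁ = _
    rw [(Um_one _ (Fn (n + 1) w).isUnit).1, hqB_diag]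
    conv_lhs => rw [← Matrix.fromBlocks_toBlocks ((g (α (w, 1)))⁻¹.1)]
    rw [Matrix.fromBlocks_multiply, Matrix.toBlocks_fromBlocks₁₁, Matrix.mul_zero, add_zero]
  have e5 : K1.mk (β.comp (jnI _ 0)) = K1.mk ((A0.comp (bb.comp ContinuousMap.fst))⁻¹ :
      C(Wt (n + 1) × Circle, (Matrix (Fin 4 ⊕ r) (Fin 4 ⊕ r) ℂ)ˣ)) := by
    apply K1.mk_hom
    apply hq_close_homotopic
    intro w s' hs0 hs1
    have := hunif (α (w, 0)) (sg (bb w.1)) (Fn (n + 1) w).1 (τ (w, 0)) (hsg _) (Fn_unitary _ _)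
      (hdist w) (by rw [abs_of_nonneg (τ (w, 0)).2.1]; exact hτ0 w) s' ⟨hs0, hs1⟩
    exact this
  have e6 : K1.mk (Fn (n + 1)) =
      K1.map (bb.comp ContinuousMap.fst) (K1.mk A1 - K1.mk A0) := by
    rw [e5, e4, K1.mk_mul, K1.mk_inv, K1.mk_inv, e2, e3, K1.mk_ds, K1.mk_one, add_zero] at e1
    rw [map_sub, K1.map_mk, K1.map_mk]
    have : K1.mk (Fn (n + 1)) = K1.mk (A1.comp (bb.comp ContinuousMap.fst)) +
      (-K1.mk (A1.comp (bb.comp ContinuousMap.fst)) + K1.mk (Fn (n + 1))) := by abel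
    rw [this, ← e1]
    abel
  have e7 : K1.map (atOne _) (K1.mk (Fn (n + 1))) = K1.mk (Fn (n + 1)) := by
    rw [e6, K1.map_comp]
    rfl
  have e8 : (Fn (n + 1)).comp (atOne _) = 1 := by
    ext1 w
    exact Fn_one (n + 1) w.1
  rw [K1.map_mk, e8, K1.mk_one] at e7
  exact Fn_ne (n + 1) e7.symm

/-- the total spaces are not shape equivalent to the base, stable version -/
theorem no_map_st {P B C : Type} [TopologicalSpace P] [CompactSpace P] [MetricSpace B]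
    [CompactSpace B] [MetricSpace C] [CompactSpace C]
    (D : FD P B C) (x0 : C(C, M4)) (hx0 : ∀ u c, x0 (D.a u c) = x0 c)
    (hx0K : ∀ c ∈ D.K, IsUnit (x0 c)) (s0 : C(C, ℝ)) (hs0 : ∀ u c, s0 (D.a u c) = s0 c)
    (hs0K : ∀ c ∈ D.K, s0 c = 0) (cst : C) (hcst : ∀ u, D.a u cst = cst) (hcK : cst ∈ D.K)
    (cend : C) (hend : s0 cend = 1)
    (H : ∀ η > (0 : ℝ), ∃ (n : ℕ) (bb : C(Wt (n + 1), B)) (α γ : C((Wt (n + 1) × Circle) × I, C)),
      (∀ w, D.dl (bb w.1) (α (w, 0)) ≤ η) ∧ (∀ w s, x0 (α (w, s)) = (Fn (n + 1) w).1) ∧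
      (∀ w, s0 (α (w, 1)) = 1) ∧ (∀ w, γ (w, 0) = α (w, 1)) ∧ (∀ w, γ (w, 1) = cend) ∧
      ∀ q, s0 (γ q) = 1) :
    ∃ u : C(D.E, M8), (∀ e, u e * u e = u e) ∧ (∀ b, u (D.Q (b, cst)) = e0) ∧
      ¬ StSim u (ContinuousMap.const _ e0) := by
  obtain ⟨ds, hds, hU, hS⟩ := exists_ds D x0 hx0 hx0K s0 hs0 hs0K
  obtain ⟨u, hu1, hu2, hu3⟩ := exists_ue D x0 ds hds hU
  have hdc : ∀ b, D.dl b cst = 0 := by
    intro b
    obtain ⟨v, rfl⟩ := D.hπ b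
    rw [D.dl_zero, hcst]
    exact hcK
  have hsg : ∀ b, u (qs D cst b) = e0 := by
    intro b
    rw [qs_apply, hu1 b cst (by rw [hdc]; positivity), hdc, zero_div, min_eq_right zero_le_one]
    exact em_zero _ (hx0K _ hcK)
  have hκ : ∀ b, u (qs D cend b) = e0 := by
    intro b
    rw [qs_apply]
    exact hu2 b cend (hS b cend hend)
  refine ⟨u, hu3, fun b => hsg b, fun hst => ?_⟩
  refine no_conj_st u hst (qs D cst) (qs D cend) hsg hκ ?_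
  intro η hη
  obtain ⟨n, bb, α, γ, a1, a2, a3, a4, a5, a6⟩ := H (min η (ds * η)) (lt_min hη (by positivity))
  refine ⟨n, bb, qa D bb α, qa D bb γ, qt D ds hds bb α, ?_, ?_, ?_, ?_, ?_, ?_, ?_⟩
  · intro w s
    rw [qa_apply, qt_apply]
    by_cases h : D.dl (bb w.1) (α (w, s)) ≤ 2 * ds
    · rw [hu1 _ _ h, a2 w s]
    · push Not at h
      have h2 : ds ≤ D.dl (bb w.1) (α (w, s)) := by linarith
      rw [hu2 _ _ h2, min_eq_left ((one_le_div hds).2 h2)]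
      exact (em_one _ (Units.isUnit _)).symm
  · intro w
    apply Subtype.ext
    rw [qt_apply]
    exact min_eq_left ((one_le_div hds).2 (hS _ _ (a3 w)))
  · intro w
    rw [qt_apply]
    refine (min_le_right _ _).trans ?_
    rw [div_le_iff₀ hds]
    have := (a1 w).trans (min_le_right _ _)
    linarith
  · intro w
    rw [qa_apply, qs_apply, D.dist_Q]
    unfold FD.dT
    have h1 := (a1 w).trans (min_le_left _ _)
    refine (add_le_add (le_of_eq (dist_self _)) (min_le_right _ _)).trans ?_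
    show 0 + (D.dl (bb w.1) (α (w, 0)) + D.dl (bb w.1) cst) ≤ η
    rw [hdc]
    linarith
  · intro w
    rw [qa_apply, qa_apply, a4]
  · intro w
    rw [qa_apply, a5, qs_apply]
  · rintro ⟨w, s⟩
    rw [qa_apply]
    exact hu2 _ _ (hS _ _ (a6 (w, s)))

/-- the exotic idempotent is stably exotic -/
theorem no_st : ∃ u : C(FD0.E, M8), (∀ e, u e * u e = u e) ∧ (∀ b, u (FD0.Q (b, cstar)) = e0) ∧
    ¬ StSim u (ContinuousMap.const _ e0) :=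
  no_map_st FD0 x00 x00_act (fun c h => (K_facts c h).1) s00
    s00_act (fun c h => (K_facts c h).2) cstar act_cstar cstar_mem cend
    s00_cend test_family

theorem piZ_open : IsOpenMap piZ := piZ_cov.isLocalHomeomorph.isOpenMap

theorem piP_open : IsOpenMap piP := by
  have h := IsOpenMap.piMap (f := fun _ : ℕ => (piZ : ZZ → Ym 4)) (fun _ => piZ_open)
    (Filter.Eventually.of_forall fun _ => piZ_surj)
  exact h

end BB

end
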